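import Pool.Agent.SGK.Stmts

/-!
Squad SGK (MP_41797f_co), row KIR: the two orders of a canonical sequence are irreflexive.
-/

set_option autoImplicit false

namespace Pool.Agent.SGK.H52

open Pool.Agent.SGE Pool.Agent.SGK

theorem kir (hI : IntStmt) : KirStmt := by
  intro V a b C S hC
  obtain ⟨x, y, hO, -, -⟩ := hI hC
  have hx : ∀ u w, HX a b S u w → x u < x w := by
    intro u w h
    have hg : ∀ u w, GX a b S u w → x u < x w := by
      intro u w h
      rcases h with ⟨h1, h2⟩ | ⟨ℓ, h1, h2⟩ | ⟨ℓ, h1, h2⟩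
      · rw [h1, h2]
        exact hO.ab
      · exact hO.xl _ _ _ h1 h2
      · exact hO.xr _ _ _ h1 h2
    induction h with
    | single h => exact hg _ _ h
    | tail _ h ih => exact ih.trans (hg _ _ h)
  have hy : ∀ u w, HY S u w → y u < y w := by
    intro u w h
    have hg : ∀ u w, GY S u w → y u < y w := by
      rintro u w ⟨ℓ, h1, h2⟩
      exact hO.up _ _ _ h1 h2
    induction h with
    | single h => exact hg _ _ h
    | tail _ h ih => exact ih.trans (hg _ _ h)
  exact ⟨fun u h => lt_irrefl _ (hx u u h), fun u h => lt_irrefl _ (hy u u h)⟩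

end Pool.Agent.SGK.H52
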